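import Mathlib
import Pool.Agent.W80.GD.Bd2

/-!
The number of prime factors of `n^2+1`, and of all monic quadratic polynomials of negative
discriminant, modulo `k ≥ 3`.

Method: the primitive elements of the quadratic order are the vertices of the Farey graph. If
`Re (κ b^Ω(n^2+tn+c)) > 0` for almost all `n` (counted by pairs of divisors), then the three real
numbers `Re (κ' b^Ω)`, `κ'^2 = κ`, at the vertices of a triangle have the same sign, and the sign
of a triangle is the same for neighbouring triangles; the Matomaki-Radziwill theorem for the angles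
of the elements of the order shows that one sign is almost absent, and an averaging identity over
the elements of norm `p` shows that then the other sign is almost absent too.
-/

set_option autoImplicit false

/-- Let `t, c` be integers with `t^2 < 4c`, `b` a root of unity with `b^2 ≠ 1` and `κ` a complex
number of absolute value `1`. There is a bound `S` such that for every `ε > 0` and all large `N` at
least `N / (log N)^(2 log 2 + ε)` of the integers `1 ≤ n ≤ N` satisfy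
`Re (κ b^Ω(n^2+tn+c)) ≤ 0` and `n^2+tn+c = s^2 m` with `1 ≤ s ≤ S`, `m` squarefree.
For `b = exp(2πi/3)` and `κ = -b^(-r)` the first condition says `Ω(n^2+tn+c) ≡ r mod 3`. -/
theorem Pool.Agent.Results.MP_7169d5_nt.OmegaHalfPlanes.result
    (t c : ℤ) (hD : t ^ 2 < 4 * c) (b κ : ℂ) (k : ℕ) (hk : 0 < k) (hbk : b ^ k = 1)
    (hb : b ^ 2 ≠ 1) (hκ : ‖κ‖ = 1) : ∃ S : ℕ,
    ∀ ε : ℝ, 0 < ε → ∃ N₀ : ℕ, ∀ N : ℕ, N₀ ≤ N →
      (N : ℝ) / Real.log N ^ (2 * Real.log 2 + ε) ≤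
        (Set.ncard {n : ℕ | 1 ≤ n ∧ n ≤ N ∧ ∃ f : ℕ, (n : ℤ) ^ 2 + t * n + c = f ∧
          (κ * b ^ ArithmeticFunction.cardFactors f).re ≤ 0 ∧
          ∃ s m : ℕ, 1 ≤ s ∧ s ≤ S ∧ f = s ^ 2 * m ∧ Squarefree m} : ℝ) := by
  obtain ⟨S, h1, -⟩ := Pool.Agent.W80.GD.half_neg hD hκ hk hbk hb
  refine ⟨S, fun ε hε => ?_⟩
  obtain ⟨N₀, h⟩ := h1 ε hε
  refine ⟨N₀, fun N hN => (h N hN).trans ?_⟩
  have hfin : {n : ℕ | 1 ≤ n ∧ n ≤ N ∧ ∃ f : ℕ, (n : ℤ) ^ 2 + t * n + c = f ∧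
        (κ * b ^ ArithmeticFunction.cardFactors f).re ≤ 0 ∧
        ∃ s m : ℕ, 1 ≤ s ∧ s ≤ S ∧ f = s ^ 2 * m ∧ Squarefree m}.Finite :=
    (Set.finite_Icc 1 N).subset fun n hn => ⟨hn.1, hn.2.1⟩
  refine Nat.cast_le.2 (Set.ncard_le_ncard ?_ hfin)
  rintro n ⟨a1, a2, f, a3, ⟨s, m, b1, b2, b3, b4⟩, a4⟩
  exact ⟨a1, a2, f, a3, a4, s, m, b1, b2, b3, b4⟩
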