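import Pool.Agent.W251.EX.Out

/-!
Let `k ≥ 3` be odd, `q ≥ 1` and `a` a residue class. Among the pairs `(d, d')` of positive integers
`≤ X` such that `d d' = n^2+1` for some `n ≡ a mod q` (there are at least `c X` of them), the residues
modulo `k` of `(Ω(d), Ω(d'))` are equidistributed for almost all `X` (in the sense of logarithmic
density), also when `d` is restricted to a residue class modulo `q` and `d`, `d'` to windows.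
-/

set_option autoImplicit false

namespace Pool.Agent.Results.MP_7169d5_nt.OmegaOddModulus

open Finset Filter

open scoped Classical in
theorem result (k : ℕ) (hk : 3 ≤ k) (_hodd : Odd k) (q : ℕ) (hq : 1 ≤ q) (a : ℕ) :
    (∃ c : ℝ, 0 < c ∧ ∃ X₀ : ℕ, ∀ X : ℕ, X₀ ≤ X →
      c * X ≤ (((Icc 1 X ×ˢ Icc 1 X).filter (fun p : ℕ × ℕ =>
        ∃ n : ℕ, p.1 * p.2 = n ^ 2 + 1 ∧ n ≡ a [MOD q])).card : ℝ)) ∧
    ∀ (r i j : ℕ) (s₁ s₂ s₃ s₄ : ℝ), 0 ≤ s₁ → s₁ < s₂ → s₂ ≤ 1 → 0 ≤ s₃ → s₃ < s₄ → s₄ ≤ 1 →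
      ∀ ε : ℝ, 0 < ε → Tendsto (fun N : ℕ => (∑ X ∈ (Icc 1 N).filter (fun X : ℕ => ε * X <
        |(((Icc 1 X ×ˢ Icc 1 X).filter (fun p : ℕ × ℕ =>
            (∃ n : ℕ, p.1 * p.2 = n ^ 2 + 1 ∧ n ≡ a [MOD q] ∧ p.1 ≡ r [MOD q]) ∧
            (s₁ * X < p.1 ∧ p.1 ≤ s₂ * X ∧ s₃ * X < p.2 ∧ p.2 ≤ s₄ * X) ∧
            ArithmeticFunction.cardFactors p.1 ≡ i [MOD k] ∧
            ArithmeticFunction.cardFactors p.2 ≡ j [MOD k])).card : ℝ) -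
          1 / (k : ℝ) ^ 2 * ((Icc 1 X ×ˢ Icc 1 X).filter (fun p : ℕ × ℕ =>
            (∃ n : ℕ, p.1 * p.2 = n ^ 2 + 1 ∧ n ≡ a [MOD q] ∧ p.1 ≡ r [MOD q]) ∧
            (s₁ * X < p.1 ∧ p.1 ≤ s₂ * X ∧ s₃ * X < p.2 ∧ p.2 ≤ s₄ * X))).card|),
        1 / (X : ℝ)) / Real.log N) atTop (nhds 0) :=
  ⟨Pool.Agent.W251.EX.outP q a hq, fun r i j s₁ s₂ s₃ s₄ h1 h2 h3 h4 h5 h6 ε hε =>
    Pool.Agent.W251.EX.outW k q (by omega) hq a r i j s₁ s₂ s₃ s₄ ε h1 h2 h3 h4 h5 h6 hε⟩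

end Pool.Agent.Results.MP_7169d5_nt.OmegaOddModulus
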