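import Pool.Agent.W123.RU.PolyP
import Pool.Agent.W123.GS.Fin

set_option autoImplicit false

/-!
# Almost prime values of nonlinear polynomials at primes: constant density at all but few scales

Let `f₁, …, f_k` be distinct irreducible integer polynomials of degree at least two with positive
leading coefficients, such that for every prime `p` some integer `m` prime to `p` has no `f_i(m)`
divisible by `p` (for instance `k = 1` and `4 X² + 1`). Consider the primes `q` for which every `f_i(q)`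
has at most `r` prime factors, all larger than `x ^ (1 / r)`. At all but boundedly many dyadic scales
`D` with `log ^ (k + 1) x ≤ D ≤ x` they have a constant density `λ / log ^ (k + 1) x` on
`[n - D, n + D]`, up to `δ / log ^ (k + 1) x`, for all subintervals simultaneously: this holds for
almost all `n` in `(x, 2 x]` with some `λ ≥ 0`, and for a positive proportion with `c₁ ≤ λ ≤ c₂`.
-/

namespace Pool.Agent.Results.MP_7169d5_nt.PrimesAllButFewScales

open Polynomial Finset Filter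

/-- `q` is prime and every value `f i (q)` has at most `r` prime factors (with multiplicity), all of
them larger than `z`. -/
def AlmostPrimeValues {ι : Type} (f : ι → ℤ[X]) (r : ℕ) (z : ℝ) (q : ℕ) : Prop :=
  q.Prime ∧ ∀ i, ((f i).eval (q : ℤ)).natAbs.primeFactorsList.length ≤ r ∧
    ∀ p : ℕ, p.Prime → (p : ℤ) ∣ (f i).eval (q : ℤ) → z < (p : ℝ)

open Classical in
/-- up to `δ / log ^ (k + 1) x` the primes `q` of the problem have a constant density `lam / log ^ (k + 1) x` with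
`c₁ ≤ lam ≤ c₂` on `[n - D, n + D]`, where `k` is the number of polynomials -/
def ConstantDensity {ι : Type} [Fintype ι] (f : ι → ℤ[X]) (r : ℕ) (c₁ c₂ δ : ℝ) (x n D : ℕ) : Prop :=
  ∃ lam : ℝ, c₁ ≤ lam ∧ lam ≤ c₂ ∧ ∀ u v : ℕ, n ≤ u + D → u ≤ v → v ≤ n + D →
    |(((Finset.Ioc u v).filter
        (fun q => AlmostPrimeValues f r ((x : ℝ) ^ (1 / (r : ℝ))) q)).card : ℝ) -
      lam * ((v : ℝ) - u) / Real.log x ^ (Fintype.card ι + 1)| ≤
        δ * D / Real.log x ^ (Fintype.card ι + 1)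

open Classical in
/-- the number of `j` with `log ^ (k + 1) x ≤ 2 ^ j ≤ x` for which there is no constant density on
`[n - 2 ^ j, n + 2 ^ j]` -/
noncomputable def badScales {ι : Type} [Fintype ι] (f : ι → ℤ[X]) (r : ℕ) (c₁ c₂ δ : ℝ) (x n : ℕ) :
    ℕ :=
  ((Finset.range (Nat.log 2 x + 1)).filter (fun j =>
    Real.log x ^ (Fintype.card ι + 1) ≤ (2 : ℝ) ^ j ∧
    ¬ ConstantDensity f r c₁ c₂ δ x n (2 ^ j))).card

open Pool.Agent.W123.RP Pool.Agent.H373R2.T7 Pool.Agent.W123.RU Pool.Agent.W123.RU.Poly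
  Pool.Agent.W123.GS

open Classical in
lemma bad_le {ι : Type} [Fintype ι] (f : ι → ℤ[X]) (r : ℕ) (c₁ c₂ δ : ℝ) (x n : ℕ) (P : ℕ → Prop)
    (L : ℝ) (hL : L = Real.log x ^ (Fintype.card ι + 1))
    (hP : ∀ m, P m ↔ AlmostPrimeValues f r ((x : ℝ) ^ (1 / (r : ℝ))) m) :
    badScales f r c₁ c₂ δ x n ≤ ((range (Nat.log 2 x + 1)).filter
      (fun j => L ≤ (2 : ℝ) ^ j ∧ ¬ Good P c₁ c₂ δ L n j)).card := by
  unfold badScales
  apply card_le_card
  intro j hj
  rw [mem_filter] at hj ⊢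
  refine ⟨hj.1, ?_, ?_⟩
  · rw [hL]; exact hj.2.1
  · intro hg
    apply hj.2.2
    obtain ⟨lam, h1, h2, h3⟩ := hg
    refine ⟨lam, h1, h2, ?_⟩
    intro u v hu huv hv
    have h4 := h3 u v hu huv hv
    have hco : co P u v = ((Finset.Ioc u v).filter
        (fun m => AlmostPrimeValues f r ((x : ℝ) ^ (1 / (r : ℝ))) m)).card := by
      unfold co
      congr 1
      ext m
      rw [mem_filter, mem_filter, hP]
    rw [hco, hL] at h4
    push_cast
    exact h4

open Classical in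
/-- **All but boundedly many scales, at primes.** -/
theorem result {ι : Type} [Fintype ι] [Nonempty ι] (f : ι → ℤ[X])
    (hirr : ∀ i, Irreducible (f i)) (hdeg : ∀ i, 2 ≤ (f i).natDegree)
    (hlead : ∀ i, 0 < (f i).leadingCoeff) (hinj : Function.Injective f)
    (hadm : ∀ p : ℕ, p.Prime → ∃ m : ℕ, ¬ p ∣ m ∧ ∀ i, ¬ (p : ℤ) ∣ (f i).eval (m : ℤ)) :
    ∃ (r : ℕ) (c₁ c₂ κ : ℝ), 0 < c₁ ∧ 0 < c₂ ∧ 0 < κ ∧ ∀ δ η : ℝ, 0 < δ → 0 < η →
    ∃ (K : ℕ) (Λ : ℝ), ∀ᶠ x : ℕ in atTop,
      κ * x ≤ (((Finset.Ioc x (2 * x)).filter (fun n => badScales f r c₁ c₂ δ x n ≤ K)).card : ℝ) ∧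
      (((Finset.Ioc x (2 * x)).filter (fun n => K < badScales f r 0 Λ δ x n)).card : ℝ) ≤ η * x := by
  have hf : Sys f := ⟨hirr, fun i => by have := hdeg i; omega, hlead, hinj, fun p hp => by
    obtain ⟨m, -, hm⟩ := hadm p hp
    exact ⟨m, hm⟩⟩
  have hfX : ∀ i, f i ≠ X := by
    intro i h
    have := hdeg i
    rw [h, natDegree_X] at this
    omega
  have hg : Sys (withX f) := sys_withX f hf hadm hfX
  obtain ⟨k, hk⟩ : ∃ k, k = Fintype.card ι + 1 := ⟨_, rfl⟩
  have hkO : Fintype.card (Option ι) = k := by rw [hk, Fintype.card_option]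
  have hk1 : 1 ≤ k := by omega
  obtain ⟨c', hc', hQ'⟩ := exists_c f hf
  obtain ⟨c, hc, hQ⟩ := exists_c (withX f) hg
  obtain ⟨D', e, hlarge⟩ := exists_large (withX f) hg
  obtain ⟨v1, Cv, -, hCv, hV⟩ := V_bounds (withX f) hg
  obtain ⟨v, hv, hPA⟩ := PA_bound f hf hadm
  rw [hkO] at hV
  obtain ⟨K1, hK1, hmain⟩ := sieve_scales c (2 * c) (c ^ 2) D' e hc
  obtain ⟨K2, hK2, hlow⟩ := prime_lower c' hc'
  choose Ki Di hKD using fun i => eval_bound (f i)
  obtain ⟨A, hA⟩ : ∃ A : ℕ, A = 1 + ∑ i, Ki i := ⟨_, rfl⟩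
  obtain ⟨d, hd⟩ : ∃ d : ℕ, d = ∑ i, Di i := ⟨_, rfl⟩
  obtain ⟨r, hr⟩ : ∃ r : ℕ, r = max K1 K2 := ⟨_, rfl⟩
  have hr1 : K1 ≤ r := by rw [hr]; exact le_max_left _ _
  have hr2 : K2 ≤ r := by rw [hr]; exact le_max_right _ _
  have hr0 : 2 ≤ r := hK1.trans hr1
  have hrr : (2 : ℝ) ≤ r := by exact_mod_cast hr0
  have hrpos : (0 : ℝ) < r := by linarith
  obtain ⟨R, hR⟩ : ∃ R : ℕ, R = (d + 2) * r := ⟨_, rfl⟩
  have hRr : (R : ℝ) = (d + 2) * r := by rw [hR]; push_cast; ring
  have hR2r : 2 * r ≤ R := by rw [hR]; nlinarith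
  have hR0 : 2 ≤ R := by omega
  have hR2r' : 2 * (r : ℝ) ≤ R := by exact_mod_cast hR2r
  have hRpos : (0 : ℝ) < R := by linarith
  set C3 : ℝ := Cv * (2 * R) ^ k with hC3
  have hC30 : 0 < C3 := by positivity
  obtain ⟨c₁, c₂, κ, hc₁, hc₂, hκ, hmain⟩ := hmain R (by omega) (v / 8) C3 (by positivity) hC30
  refine ⟨R, c₁, c₂, κ, hc₁, hc₂, hκ, ?_⟩
  intro δ η hδ hη
  obtain ⟨K, lam, L0, hlam, hreg⟩ := hmain δ η hδ hη
  refine ⟨K, lam, ?_⟩
  have hXr : Tendsto (fun X : ℕ => (X : ℝ)) atTop atTop := tendsto_natCast_atTop_atTop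
  have hpow : Tendsto (fun X : ℕ => (X : ℝ) ^ (1 / (2 * R : ℝ))) atTop atTop :=
    (tendsto_rpow_atTop (by positivity)).comp hXr
  have hlogX : Tendsto (fun X : ℕ => Real.log (X : ℝ)) atTop atTop :=
    Real.tendsto_log_atTop.comp hXr
  have key : ∀ᶠ X : ℕ in atTop,
      κ * X ≤ (((Finset.Ioc X (2 * X)).filter (fun n => badScales f R c₁ c₂ δ X n ≤ K)).card : ℝ) ∧
      (((Finset.Ioc X (2 * X)).filter (fun n => K < badScales f R 0 lam δ X n)).card : ℝ) ≤ η * X := by
    filter_upwards [hreg, hlow r hr2 k, eventually_ge_atTop (max 16 (A * 5 ^ d)),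
      hpow.eventually_ge_atTop 3, hlogX.eventually_ge_atTop (2 + |L0| + 1 / v),
      logpow_le (8 * k) 1 (by norm_num)] with X hreg hlow hX16' hX2 hXlog hlp
    have hX16 : 16 ≤ X := (le_max_left _ _).trans hX16'
    have hXA : A * 5 ^ d ≤ X := (le_max_right _ _).trans hX16'
    have hX16r : (16 : ℝ) ≤ X := by exact_mod_cast hX16
    have hXpos : (0 : ℝ) < X := by linarith
    have hX1 : (1 : ℝ) ≤ X := by linarith
    have hL0a : 0 ≤ |L0| := abs_nonneg _
    have hv1 : 0 < 1 / v := by positivity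
    have hlX2 : 2 ≤ Real.log X := by linarith
    have hlX : 0 < Real.log X := by linarith
    have hlX1 : 1 ≤ Real.log X := by linarith
    set L : ℝ := Real.log X ^ k with hL
    have hlL : Real.log X ≤ L := by
      calc Real.log X = Real.log X ^ 1 := (pow_one _).symm
        _ ≤ Real.log X ^ k := pow_le_pow_right₀ hlX1 hk1
    have hLpos : 0 < L := by linarith
    have hL8 : L ^ 8 ≤ X := by
      rw [hL, ← pow_mul, mul_comm k 8]
      linarith
    obtain ⟨hy1, hy2, hy3, hy4⟩ := level_low R hR0 X (by omega) (by linarith)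
    have hmono : (X : ℝ) ^ (1 / (2 * R : ℝ)) ≤ (X : ℝ) ^ (1 / (2 * r : ℝ)) := by
      apply Real.rpow_le_rpow_of_exponent_le hX1
      apply one_div_le_one_div_of_le (by positivity)
      linarith
    obtain ⟨hz1, hz2, hz3, hz4⟩ := level_low r hr0 X (by omega) (by linarith)
    have hy5 : 3 ≤ ⌊(X : ℝ) ^ (1 / (R : ℝ))⌋₊ := by
      have : (3 : ℝ) ≤ ⌊(X : ℝ) ^ (1 / (R : ℝ))⌋₊ := hX2.trans hy1
      exact_mod_cast this
    have hz5 : 3 ≤ ⌊(X : ℝ) ^ (1 / (r : ℝ))⌋₊ := by
      have : (3 : ℝ) ≤ ⌊(X : ℝ) ^ (1 / (r : ℝ))⌋₊ := hX2.trans (hmono.trans hz1)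
      exact_mod_cast this
    have hylog : 0 < Real.log ⌊(X : ℝ) ^ (1 / (R : ℝ))⌋₊ := lt_of_lt_of_le (by positivity) hy2
    have hzlog : 0 < Real.log ⌊(X : ℝ) ^ (1 / (r : ℝ))⌋₊ := lt_of_lt_of_le (by positivity) hz2
    have h2X : ((2 * X : ℕ) : ℝ) ^ (1 / (R : ℝ)) ≤ (X : ℝ) ^ (1 / (r : ℝ)) := by
      calc ((2 * X : ℕ) : ℝ) ^ (1 / (R : ℝ)) ≤ ((X : ℝ) ^ (2 : ℝ)) ^ (1 / (R : ℝ)) := by
            apply Real.rpow_le_rpow (by positivity) _ (by positivity)
            push_cast
            rw [Real.rpow_two]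
            nlinarith
        _ = (X : ℝ) ^ (2 * (1 / (R : ℝ))) := by rw [← Real.rpow_mul hXpos.le]
        _ ≤ (X : ℝ) ^ (1 / (r : ℝ)) := by
          apply Real.rpow_le_rpow_of_exponent_le hX1
          rw [mul_one_div, div_le_div_iff₀ hRpos hrpos]
          linarith
    -- upper bound of the sieve product
    have hVy : Vq (Q (withX f)) ⌊(X : ℝ) ^ (1 / (R : ℝ))⌋₊ ≤ C3 / L := by
      refine (hV _ hy5).2.trans ?_
      have h1 : (Real.log X / (2 * R)) ^ k ≤ Real.log ⌊(X : ℝ) ^ (1 / (R : ℝ))⌋₊ ^ k :=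
        pow_le_pow_left₀ (by positivity) hy2 k
      calc Cv / Real.log ⌊(X : ℝ) ^ (1 / (R : ℝ))⌋₊ ^ k ≤ Cv / (Real.log X / (2 * R)) ^ k := by gcongr
        _ = C3 / L := by rw [hC3, hL, div_pow]; field_simp
    -- lower bound
    have hVz : v * Real.log X / L ≤ ∏ p ∈ pz ⌊(X : ℝ) ^ (1 / (r : ℝ))⌋₊,
        (1 - (rhoA (Q f) p : ℝ) / (p - 1 : ℝ)) := by
      refine le_trans ?_ (hPA _ hz5)
      calc v * Real.log X / L = v / Real.log X ^ Fintype.card ι := by
            rw [hL, hk, pow_succ]; field_simp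
        _ ≤ _ := by gcongr
    obtain ⟨E0, hE0, hlarge'⟩ := hlarge ⌊L⌋₊
    -- the set
    obtain ⟨P, hP⟩ : ∃ P : ℕ → Prop, ∀ m, P m ↔ AlmostPrimeValues f R ((X : ℝ) ^ (1 / (R : ℝ))) m :=
      ⟨_, fun m => Iff.rfl⟩
    have hXX : (X : ℝ) ^ (1 / (R : ℝ)) ≤ (X : ℝ) ^ (1 / (r : ℝ)) := by
      apply Real.rpow_le_rpow_of_exponent_le hX1
      apply one_div_le_one_div_of_le hrpos
      linarith
    have hcnt : v / 8 * X / L ≤ (co P X (2 * X) : ℝ) := by
      have h1 := hlow (Q f) (perA_of_perB _ c' hQ') (by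
        refine le_trans ?_ hVz
        apply div_le_div_of_nonneg_right _ hLpos.le
        have : 1 / v ≤ Real.log X := by linarith
        rw [div_le_iff₀ hv] at this
        linarith)
      have h2 : (((Finset.Ioc X (2 * X)).filter (fun n => n.Prime ∧
          ∀ p ∈ pz ⌊(X : ℝ) ^ (1 / (r : ℝ))⌋₊, ¬ Q f p n)).card : ℝ) ≤ (co P X (2 * X) : ℝ) := by
        have : ((Finset.Ioc X (2 * X)).filter (fun n => n.Prime ∧
          ∀ p ∈ pz ⌊(X : ℝ) ^ (1 / (r : ℝ))⌋₊, ¬ Q f p n)).card ≤ co P X (2 * X) := by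
          unfold co
          apply card_le_card
          intro m hm
          rw [mem_filter, mem_Ioc] at hm
          rw [mem_filter, mem_Ioc, hP]
          obtain ⟨hm1, hm2, hm3⟩ := hm
          refine ⟨hm1, hm2, ?_⟩
          intro i
          have hrough : ∀ p : ℕ, p.Prime → (p : ℤ) ∣ (f i).eval (m : ℤ) →
              (X : ℝ) ^ (1 / (r : ℝ)) < p := by
            intro p hp hd
            exact not_mem_pz hp (fun h => hm3 p h ⟨i, hd⟩)
          have hz0 : 2 ≤ (X : ℝ) ^ (1 / (r : ℝ)) := by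
            have h6 : ((⌊(X : ℝ) ^ (1 / (r : ℝ))⌋₊ : ℕ) : ℝ) ≤ (X : ℝ) ^ (1 / (r : ℝ)) :=
              Nat.floor_le (by positivity)
            have h7 : (2 : ℝ) ≤ ((⌊(X : ℝ) ^ (1 / (r : ℝ))⌋₊ : ℕ) : ℝ) := by exact_mod_cast hz4
            linarith
          have hne : (f i).eval (m : ℤ) ≠ 0 := by
            intro h0
            have := hrough 2 Nat.prime_two (by rw [h0]; exact dvd_zero _)
            push_cast at this
            linarith
          refine ⟨?_, fun p hp hd => lt_of_le_of_lt hXX (hrough p hp hd)⟩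
          apply length_le _ R (Int.natAbs_ne_zero.2 hne) ((X : ℝ) ^ (1 / (r : ℝ)))
          · intro p hp hd
            exact hrough p hp (Int.natCast_dvd.2 hd)
          · have h8 := hKD i (m : ℤ)
            have e1 : ((((f i).eval (m : ℤ)).natAbs : ℕ) : ℝ) =
                |(((f i).eval (m : ℤ) : ℤ) : ℝ)| := by
              rw [Nat.cast_natAbs, Int.cast_abs]
            have e2 : |((m : ℤ) : ℝ)| = (m : ℝ) := by
              rw [Int.cast_natCast, abs_of_nonneg (Nat.cast_nonneg m)]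
            rw [e1]
            rw [e2] at h8
            have hm5 : (1 : ℝ) + m ≤ 5 * X := by
              have h9 : m ≤ 4 * X := by omega
              have h10 : (m : ℝ) ≤ 4 * X := by exact_mod_cast h9
              linarith
            have hm6 : (1 : ℝ) ≤ 1 + m := by
              have : (0 : ℝ) ≤ m := Nat.cast_nonneg m
              linarith
            have hKA : (Ki i : ℝ) ≤ A := by
              have h9 : Ki i ≤ ∑ i, Ki i :=
                Finset.single_le_sum (f := Ki) (fun _ _ => Nat.zero_le _) (mem_univ i)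
              have h10 : Ki i ≤ A := by omega
              exact_mod_cast h10
            have hDd : Di i ≤ d := by
              rw [hd]
              exact Finset.single_le_sum (f := Di) (fun _ _ => Nat.zero_le _) (mem_univ i)
            have hXA' : (A : ℝ) * 5 ^ d ≤ X := by exact_mod_cast hXA
            have e3 : ((X : ℝ) ^ (1 / (r : ℝ))) ^ R = (X : ℝ) ^ (d + 2) := by
              rw [← Real.rpow_natCast ((X : ℝ) ^ (1 / (r : ℝ))), ← Real.rpow_mul hXpos.le, hRr,
                ← Real.rpow_natCast]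
              congr 1
              push_cast
              field_simp
            rw [pow_succ, e3]
            calc |(((f i).eval (m : ℤ) : ℤ) : ℝ)| ≤ Ki i * (1 + m) ^ Di i := h8
              _ ≤ A * (1 + m) ^ d := by
                apply mul_le_mul hKA (pow_le_pow_right₀ hm6 hDd) (by positivity) (by positivity)
              _ ≤ A * (5 * X) ^ d := by gcongr
              _ = A * 5 ^ d * (X : ℝ) ^ d := by rw [mul_pow]; ring
              _ ≤ X * (X : ℝ) ^ d := by gcongr
              _ = (X : ℝ) ^ (d + 1) * 1 := by rw [pow_succ]; ring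
              _ ≤ (X : ℝ) ^ (d + 2) * (X : ℝ) ^ (1 / (r : ℝ)) := by
                apply mul_le_mul (pow_le_pow_right₀ hX1 (by omega)) _ (by norm_num) (by positivity)
                linarith
          · linarith
        exact_mod_cast this
      refine le_trans ?_ (h1.trans h2)
      calc v / 8 * X / L = v * Real.log X / L * X / (8 * Real.log X) := by field_simp
        _ ≤ _ := by gcongr
    have hPQ : ∀ m, P m → m ≤ 4 * X → ⌊(X : ℝ) ^ (1 / (R : ℝ))⌋₊ < m →
        ∀ p ∈ pz ⌊(X : ℝ) ^ (1 / (R : ℝ))⌋₊, ¬ Q (withX f) p m := by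
      intro m hPm _ hm p hp hq
      obtain ⟨h1, h2⟩ := (hP m).1 hPm
      have hpp := (mem_pz.1 hp).2
      obtain ⟨o, ho⟩ := hq
      cases o with
      | none =>
        change (p : ℤ) ∣ (Polynomial.X : Polynomial ℤ).eval (m : ℤ) at ho
        rw [eval_X] at ho
        have h5 : p ∣ m := by exact_mod_cast ho
        have h6 := (Nat.prime_dvd_prime_iff_eq hpp h1).1 h5
        have h7 := (mem_pz.1 hp).1
        omega
      | some i =>
        have h5 := (h2 i).2 p hpp ho
        have h6 := mem_pz' (by positivity) hp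
        linarith
    have hfin := hreg (Q (withX f)) (CoG (Q (withX f))) L E0 (sdata (withX f) hg c hQ) (by
      have := le_abs_self L0
      linarith) hL8 hVy hE0 (hlarge' _) P P (fun m h => h) hPQ hcnt
    refine conclude P c₁ c₂ δ L lam κ η K X (fun n => badScales f R c₁ c₂ δ X n)
      (fun n => badScales f R 0 lam δ X n) ?_ ?_ hfin
    · intro n _ _
      exact bad_le f R c₁ c₂ δ X n P L (by rw [hL, hk]) hP
    · intro n _ _
      exact bad_le f R 0 lam δ X n P L (by rw [hL, hk]) hP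
  exact key

end Pool.Agent.Results.MP_7169d5_nt.PrimesAllButFewScales
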